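import Mathlib
import Pool.Agent.H759R2.Kad.Props

/-! Task 06 of the Kadison project: column and row bounds (helper99). -/

open scoped ComplexOrder InnerProductSpace ComplexConjugate
open Finset

noncomputable section

namespace H759R2.Kad

universe u v

namespace Col

variable {B : Type u} [CStarAlgebra B]

theorem norm_one_le : ‖(1 : B)‖ ≤ 1 := by
  have h : ‖star (1 : B) * 1‖ = ‖(1 : B)‖ * ‖(1 : B)‖ := CStarRing.norm_star_mul_self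
  rw [star_one, mul_one] at h
  nlinarith [norm_nonneg (1 : B)]

theorem norm_unitary_le (g : unitary B) : ‖(g : B)‖ ≤ 1 := by
  have h : ‖star (g : B) * g‖ = ‖(g : B)‖ * ‖(g : B)‖ := CStarRing.norm_star_mul_self
  rw [Unitary.coe_star_mul_self] at h
  have := norm_one_le (B := B)
  nlinarith [norm_nonneg (g : B)]

variable [PartialOrder B] [StarOrderedRing B]

theorem state_bound (τ : B →ₗ[ℂ] ℂ) (hτ : IsTracialState τ) (q : B) (hq : 0 ≤ q) :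
    ‖τ q‖ ≤ ‖q‖ := by
  have hpos : ∀ b : B, 0 ≤ b → 0 ≤ τ b := by
    intro b hb
    obtain ⟨c, hc⟩ := CStarAlgebra.nonneg_iff_eq_star_mul_self.1 hb
    rw [hc]
    exact hτ.pos c
  have h1 : 0 ≤ τ q := hpos q hq
  have h2 : 0 ≤ τ (algebraMap ℝ B ‖q‖ - q) := by
    refine hpos _ ?_
    rw [sub_nonneg]
    exact IsSelfAdjoint.le_algebraMap_norm_self hq.isSelfAdjoint
  have h3 : τ (algebraMap ℝ B ‖q‖) = (‖q‖ : ℂ) := by
    have e : algebraMap ℝ B ‖q‖ = (‖q‖ : ℂ) • (1 : B) := by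
      rw [Algebra.algebraMap_eq_smul_one]
      simp
    rw [e, map_smul, hτ.one]
    simp
  rw [map_sub, h3, sub_nonneg] at h2
  have h4 : (τ q).re ≤ ‖q‖ := by
    have := (Complex.le_def.1 h2).1
    simpa using this
  have h5 : ‖τ q‖ = (τ q).re := by
    have h6 : (τ q).im = 0 := by
      have := (Complex.le_def.1 h1).2
      simpa using this.symm
    have h7 : 0 ≤ (τ q).re := by
      have := (Complex.le_def.1 h1).1
      simpa using this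
    have h8 : τ q = ((τ q).re : ℂ) := by
      apply Complex.ext <;> simp [h6]
    rw [h8, Complex.norm_real, Complex.ofReal_re, Real.norm_eq_abs, abs_of_nonneg h7]
  rw [h5]
  exact h4

end Col

open Col

theorem col_aux (h : St_gt.{u, v}) (B : Type u) [CStarAlgebra B] [PartialOrder B]
    [StarOrderedRing B] (K : Type v) [NormedAddCommGroup K] [InnerProductSpace ℂ K]
    [CompleteSpace K] (π : B →⋆ₐ[ℂ] (K →L[ℂ] K)) (D : B →ₗ[ℂ] (K →L[ℂ] K)) (τ : B →ₗ[ℂ] ℂ)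
    (hD : IsDer π D) (hτ : IsTracialState τ) (hdix : HasDixmier τ) (γ : ℝ) (hγ : 0 ≤ γ)
    (hDb : ∀ b, ‖D b‖ ≤ γ * ‖b‖) (κ : Type) [Fintype κ] (a : κ → B) (ζ : K) (ε : ℝ) (hε : 0 < ε) :
    ∑ k, ‖D (a k) ζ‖ ^ 2 ≤ γ ^ 2 * ‖ζ‖ ^ 2 * (14 * ‖∑ k, star (a k) * a k‖ + 6 * ε) := by
  set q : B := ∑ k, star (a k) * a k with hq
  set p : B := ∑ k, a k * star (a k) with hp
  set s : ℝ := ‖q‖ with hs
  have hq0 : 0 ≤ q := Finset.sum_nonneg fun k _ => star_mul_self_nonneg _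
  have hpsa : IsSelfAdjoint p := by
    rw [hp]
    exact isSelfAdjoint_sum _ fun k _ => IsSelfAdjoint.mul_star_self (a k)
  obtain ⟨N, g, hg⟩ := hdix p hpsa ε hε
  have hN : (0 : ℝ) < (N : ℝ) + 1 := by positivity
  have hτp : τ p = τ q := by
    rw [hp, hq, map_sum, map_sum]
    exact Finset.sum_congr rfl fun k _ => hτ.comm _ _
  have hnorm_avg : ‖∑ i, (g i : B) * p * star (g i : B)‖ ≤ ((N : ℝ) + 1) * (s + ε) := by
    have h1 : ‖((N + 1 : ℂ))⁻¹ • ∑ k, (g k : B) * p * star (g k : B)‖ ≤ s + ε := by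
      have h2 : ‖algebraMap ℂ B (τ p)‖ ≤ s := by
        rw [norm_algebraMap, hτp]
        calc ‖τ q‖ * ‖(1 : B)‖ ≤ ‖q‖ * 1 := by
              gcongr
              · exact state_bound τ hτ q hq0
              · exact norm_one_le
          _ = s := by rw [mul_one]
      calc ‖((N + 1 : ℂ))⁻¹ • ∑ k, (g k : B) * p * star (g k : B)‖
          = ‖(((N + 1 : ℂ))⁻¹ • ∑ k, (g k : B) * p * star (g k : B) - algebraMap ℂ B (τ p)) +
              algebraMap ℂ B (τ p)‖ := by rw [sub_add_cancel]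
        _ ≤ ‖((N + 1 : ℂ))⁻¹ • ∑ k, (g k : B) * p * star (g k : B) - algebraMap ℂ B (τ p)‖ +
              ‖algebraMap ℂ B (τ p)‖ := norm_add_le _ _
        _ ≤ s + ε := by linarith
    rw [norm_smul, norm_inv] at h1
    have h3 : ‖((N : ℂ) + 1)‖ = (N : ℝ) + 1 := by
      have : ((N : ℂ) + 1) = ((N + 1 : ℕ) : ℂ) := by push_cast; ring
      rw [this, Complex.norm_natCast]
      push_cast; ring
    rw [h3, inv_mul_le_iff₀ hN] at h1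
    exact h1
  -- the Grothendieck inequality
  have hgt := h B K ((ContinuousLinearMap.apply ℂ K ζ).toLinearMap.comp D) (γ * ‖ζ‖)
    (by positivity) (fun b => by
      simp only [LinearMap.comp_apply, ContinuousLinearMap.coe_coe, ContinuousLinearMap.apply_apply]
      calc ‖D b ζ‖ ≤ ‖D b‖ * ‖ζ‖ := (D b).le_opNorm ζ
        _ ≤ γ * ‖b‖ * ‖ζ‖ := by gcongr; exact hDb b
        _ = γ * ‖ζ‖ * ‖b‖ := by ring) (Fin (N + 1) × κ) (fun ik => (g ik.1 : B) * a ik.2)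
  simp only [LinearMap.comp_apply, ContinuousLinearMap.coe_coe, ContinuousLinearMap.apply_apply] at hgt
  have e1 : ∑ ik : Fin (N + 1) × κ, star ((g ik.1 : B) * a ik.2) * ((g ik.1 : B) * a ik.2) =
      ((N : ℂ) + 1) • q := by
    rw [Fintype.sum_prod_type]
    have : ∀ i : Fin (N + 1), ∑ k, star ((g i : B) * a k) * ((g i : B) * a k) = q := by
      intro i
      rw [hq]
      refine Finset.sum_congr rfl fun k _ => ?_
      rw [star_mul, mul_assoc, ← mul_assoc (star (g i : B)), Unitary.coe_star_mul_self, one_mul]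
    simp only [this]
    rw [Finset.sum_const, Finset.card_univ, Fintype.card_fin, ← Nat.cast_smul_eq_nsmul ℂ]
    push_cast
    rfl
  have e2 : ∑ ik : Fin (N + 1) × κ, ((g ik.1 : B) * a ik.2) * star ((g ik.1 : B) * a ik.2) =
      ∑ i, (g i : B) * p * star (g i : B) := by
    rw [Fintype.sum_prod_type]
    refine Finset.sum_congr rfl fun i _ => ?_
    rw [hp, Finset.mul_sum, Finset.sum_mul]
    refine Finset.sum_congr rfl fun k _ => ?_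
    rw [star_mul]
    simp only [mul_assoc]
  have hn1 : ‖((N : ℂ) + 1) • q‖ = ((N : ℝ) + 1) * s := by
    rw [norm_smul]
    have : ((N : ℂ) + 1) = ((N + 1 : ℕ) : ℂ) := by push_cast; ring
    rw [this, Complex.norm_natCast]
    push_cast; ring
  rw [e1, e2, hn1] at hgt
  have hgt2 : ∑ ik : Fin (N + 1) × κ, ‖D ((g ik.1 : B) * a ik.2) ζ‖ ^ 2 ≤
      3 * (γ * ‖ζ‖) ^ 2 * (((N : ℝ) + 1) * (2 * s + ε)) := by
    refine hgt.trans ?_
    have : ((N : ℝ) + 1) * s + ‖∑ i, (g i : B) * p * star (g i : B)‖ ≤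
        ((N : ℝ) + 1) * (2 * s + ε) := by linarith
    gcongr
  -- the Leibniz rule
  have hiso : ∀ (i : Fin (N + 1)) (x : K), ‖π (g i : B) x‖ = ‖x‖ := by
    intro i x
    have h1 : star (π (g i : B)) * π (g i : B) = 1 := by
      rw [← map_star, ← map_mul, Unitary.coe_star_mul_self, map_one]
    have h2 : ‖π (g i : B) x‖ ^ 2 = ‖x‖ ^ 2 := by
      have h3 : ⟪π (g i : B) x, π (g i : B) x⟫_ℂ = ⟪x, x⟫_ℂ := by
        have h4 : ⟪x, (star (π (g i : B)) * π (g i : B)) x⟫_ℂ = ⟪x, x⟫_ℂ := by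
          rw [h1]; rfl
        rw [← h4, ContinuousLinearMap.star_eq_adjoint]
        simp only [mul_apply_eq_comp]
        rw [ContinuousLinearMap.adjoint_inner_right]
      have h5 := congrArg Complex.re h3
      rw [← inner_self_eq_norm_sq (𝕜 := ℂ), ← inner_self_eq_norm_sq (𝕜 := ℂ)]
      exact h5
    exact (sq_eq_sq₀ (norm_nonneg _) (norm_nonneg _)).1 h2
  have hleib : ∀ (i : Fin (N + 1)) (k : κ), ‖D (a k) ζ‖ ^ 2 ≤
      2 * ‖D ((g i : B) * a k) ζ‖ ^ 2 + 2 * γ ^ 2 * ‖π (a k) ζ‖ ^ 2 := by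
    intro i k
    have h1 : π (g i : B) (D (a k) ζ) = D ((g i : B) * a k) ζ - D (g i : B) (π (a k) ζ) := by
      rw [hD.leib]
      simp only [add_apply, mul_apply_eq_comp]
      abel
    have h2 : ‖D (a k) ζ‖ ≤ ‖D ((g i : B) * a k) ζ‖ + γ * ‖π (a k) ζ‖ := by
      rw [← hiso i, h1]
      refine (norm_sub_le _ _).trans ?_
      gcongr
      calc ‖D (g i : B) (π (a k) ζ)‖ ≤ ‖D (g i : B)‖ * ‖π (a k) ζ‖ := (D _).le_opNorm _
        _ ≤ γ * ‖(g i : B)‖ * ‖π (a k) ζ‖ := by gcongr; exact hDb _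
        _ ≤ γ * 1 * ‖π (a k) ζ‖ := by gcongr; exact norm_unitary_le _
        _ = γ * ‖π (a k) ζ‖ := by rw [mul_one]
    have h3 : 0 ≤ ‖D (a k) ζ‖ := norm_nonneg _
    calc ‖D (a k) ζ‖ ^ 2 ≤ (‖D ((g i : B) * a k) ζ‖ + γ * ‖π (a k) ζ‖) ^ 2 := by gcongr
      _ ≤ _ := by nlinarith [sq_nonneg (‖D ((g i : B) * a k) ζ‖ - γ * ‖π (a k) ζ‖)]
  have hπ : ∑ k, ‖π (a k) ζ‖ ^ 2 ≤ s * ‖ζ‖ ^ 2 := by
    have h1 : ∀ k, ‖π (a k) ζ‖ ^ 2 = (⟪ζ, π (star (a k) * a k) ζ⟫_ℂ).re := by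
      intro k
      rw [map_mul, map_star, ContinuousLinearMap.star_eq_adjoint]
      simp only [mul_apply_eq_comp]
      rw [ContinuousLinearMap.adjoint_inner_right, ← inner_self_eq_norm_sq (𝕜 := ℂ)]
      rfl
    have h2 : ∑ k, ‖π (a k) ζ‖ ^ 2 = (⟪ζ, π q ζ⟫_ℂ).re := by
      simp only [h1]
      rw [← Complex.re_sum, ← inner_sum, hq, map_sum, _root_.sum_apply]
    rw [h2]
    calc (⟪ζ, π q ζ⟫_ℂ).re ≤ ‖⟪ζ, π q ζ⟫_ℂ‖ := Complex.re_le_norm _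
      _ ≤ ‖ζ‖ * ‖π q ζ‖ := norm_inner_le_norm _ _
      _ ≤ ‖ζ‖ * (‖π q‖ * ‖ζ‖) := by gcongr; exact (π q).le_opNorm ζ
      _ ≤ ‖ζ‖ * (‖q‖ * ‖ζ‖) := by
          gcongr
          exact NonUnitalStarAlgHom.norm_apply_le π q
      _ = s * ‖ζ‖ ^ 2 := by ring
  have hsum : ((N : ℝ) + 1) * ∑ k, ‖D (a k) ζ‖ ^ 2 ≤
      2 * (3 * (γ * ‖ζ‖) ^ 2 * (((N : ℝ) + 1) * (2 * s + ε))) +
        2 * γ ^ 2 * (((N : ℝ) + 1) * (s * ‖ζ‖ ^ 2)) := by
    have h1 : ((N : ℝ) + 1) * ∑ k, ‖D (a k) ζ‖ ^ 2 = ∑ _i : Fin (N + 1), ∑ k, ‖D (a k) ζ‖ ^ 2 := by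
      rw [Finset.sum_const, Finset.card_univ, Fintype.card_fin, nsmul_eq_mul]
      push_cast; ring
    rw [h1]
    calc ∑ _i : Fin (N + 1), ∑ k, ‖D (a k) ζ‖ ^ 2
        ≤ ∑ i : Fin (N + 1), ∑ k, (2 * ‖D ((g i : B) * a k) ζ‖ ^ 2 + 2 * γ ^ 2 * ‖π (a k) ζ‖ ^ 2) :=
          Finset.sum_le_sum fun i _ => Finset.sum_le_sum fun k _ => hleib i k
      _ = 2 * ∑ ik : Fin (N + 1) × κ, ‖D ((g ik.1 : B) * a ik.2) ζ‖ ^ 2 +
            2 * γ ^ 2 * (((N : ℝ) + 1) * ∑ k, ‖π (a k) ζ‖ ^ 2) := by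
          rw [Fintype.sum_prod_type]
          simp only [Finset.sum_add_distrib, ← Finset.mul_sum]
          rw [Finset.sum_const, Finset.card_univ, Fintype.card_fin, nsmul_eq_mul]
          push_cast; ring
      _ ≤ _ := by gcongr
  have hfin : ((N : ℝ) + 1) * ∑ k, ‖D (a k) ζ‖ ^ 2 ≤
      ((N : ℝ) + 1) * (γ ^ 2 * ‖ζ‖ ^ 2 * (14 * s + 6 * ε)) := by
    refine hsum.trans (le_of_eq ?_)
    ring
  exact le_of_mul_le_mul_left hfin hN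

theorem prove_col (h : St_gt.{u, v}) : St_col.{u, v} := by
  intro B _ _ _ K _ _ _ π D τ hD hτ hdix γ hγ hDb κ _ a
  have hcol : ∀ (a : κ → B) (ζ : K), ∑ k, ‖D (a k) ζ‖ ^ 2 ≤
      14 * γ ^ 2 * ‖∑ k, star (a k) * a k‖ * ‖ζ‖ ^ 2 := by
    intro a ζ
    refine le_of_forall_pos_le_add fun δ hδ => ?_
    have hε : 0 < δ / (6 * (γ ^ 2 * ‖ζ‖ ^ 2) + 1) := by positivity
    refine (col_aux h B K π D τ hD hτ hdix γ hγ hDb κ a ζ _ hε).trans ?_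
    have h1 : γ ^ 2 * ‖ζ‖ ^ 2 * (6 * (δ / (6 * (γ ^ 2 * ‖ζ‖ ^ 2) + 1))) ≤ δ := by
      have h2 : 0 < 6 * (γ ^ 2 * ‖ζ‖ ^ 2) + 1 := by positivity
      have h3 : γ ^ 2 * ‖ζ‖ ^ 2 * (6 * (δ / (6 * (γ ^ 2 * ‖ζ‖ ^ 2) + 1))) =
          (6 * (γ ^ 2 * ‖ζ‖ ^ 2)) * δ / (6 * (γ ^ 2 * ‖ζ‖ ^ 2) + 1) := by ring
      rw [h3, div_le_iff₀ h2]
      nlinarith
    linarith
  refine ⟨hcol a, fun ξ => ?_⟩
  set y : K := ∑ k, D (a k) (ξ k) with hy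
  have h1 : ‖y‖ ^ 2 ≤ ∑ k, ‖D (star (a k)) y‖ * ‖ξ k‖ := by
    have h2 : ‖y‖ ^ 2 = ∑ k, (⟪y, D (a k) (ξ k)⟫_ℂ).re := by
      have h3 : ‖y‖ ^ 2 = (⟪y, y⟫_ℂ).re := by
        rw [← inner_self_eq_norm_sq (𝕜 := ℂ)]
        rfl
      have h4 : ⟪y, y⟫_ℂ = ∑ k, ⟪y, D (a k) (ξ k)⟫_ℂ := by
        rw [← inner_sum, ← hy]
      rw [h3, h4, Complex.re_sum]
    rw [h2]
    refine Finset.sum_le_sum fun k _ => ?_
    have h5 : ⟪y, D (a k) (ξ k)⟫_ℂ = -⟪D (star (a k)) y, ξ k⟫_ℂ := by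
      rw [hD.anti, ContinuousLinearMap.star_eq_adjoint]
      simp only [neg_apply, inner_neg_left, neg_neg]
      rw [ContinuousLinearMap.adjoint_inner_left]
    rw [h5]
    calc (-⟪D (star (a k)) y, ξ k⟫_ℂ).re ≤ ‖-⟪D (star (a k)) y, ξ k⟫_ℂ‖ := Complex.re_le_norm _
      _ = ‖⟪D (star (a k)) y, ξ k⟫_ℂ‖ := norm_neg _
      _ ≤ ‖D (star (a k)) y‖ * ‖ξ k‖ := norm_inner_le_norm _ _
  have h6 : (∑ k, ‖D (star (a k)) y‖ * ‖ξ k‖) ^ 2 ≤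
      (∑ k, ‖D (star (a k)) y‖ ^ 2) * ∑ k, ‖ξ k‖ ^ 2 := Finset.sum_mul_sq_le_sq_mul_sq _ _ _
  have h7 : ∑ k, ‖D (star (a k)) y‖ ^ 2 ≤ 14 * γ ^ 2 * ‖∑ k, a k * star (a k)‖ * ‖y‖ ^ 2 := by
    have := hcol (fun k => star (a k)) y
    simpa only [star_star] using this
  have hξ : 0 ≤ ∑ k, ‖ξ k‖ ^ 2 := Finset.sum_nonneg fun k _ => by positivity
  have h8 : ‖y‖ ^ 2 * ‖y‖ ^ 2 ≤ (14 * γ ^ 2 * ‖∑ k, a k * star (a k)‖ * ∑ k, ‖ξ k‖ ^ 2) * ‖y‖ ^ 2 := by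
    calc ‖y‖ ^ 2 * ‖y‖ ^ 2 = (‖y‖ ^ 2) ^ 2 := by ring
      _ ≤ (∑ k, ‖D (star (a k)) y‖ * ‖ξ k‖) ^ 2 := by gcongr
      _ ≤ (∑ k, ‖D (star (a k)) y‖ ^ 2) * ∑ k, ‖ξ k‖ ^ 2 := h6
      _ ≤ (14 * γ ^ 2 * ‖∑ k, a k * star (a k)‖ * ‖y‖ ^ 2) * ∑ k, ‖ξ k‖ ^ 2 := by gcongr
      _ = _ := by ring
  rcases (sq_nonneg ‖y‖).eq_or_lt with h9 | h9
  · rw [← h9]
    positivity
  · exact le_of_mul_le_mul_right h8 h9

end H759R2.Kad
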